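import Pool.Agent.H958.RO.Stm

/-!
# Orders generated by forests
-/

set_option autoImplicit false

namespace Pool.Agent.H553.RO.Forest

open Finset Filter Topology
open scoped Classical
open Pool.Agent.W830.RD (Om gle Pr Rlz)
open Pool.Agent.H958.RO

noncomputable section

/-! ## Lists -/

lemma lt_pre (p : List ℤ) (c : ℤ) (r : List ℤ) : p < p ++ c :: r := by
  induction p with
  | nil => exact List.nil_lt_cons c r
  | cons a p ih => exact List.cons_lt_cons_iff.mpr (Or.inr ⟨rfl, ih⟩)

lemma lt_diff (p : List ℤ) (c c' : ℤ) (h : c < c') (r r' : List ℤ) :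
    p ++ c :: r < p ++ c' :: r' := by
  induction p with
  | nil => exact List.cons_lt_cons_iff.mpr (Or.inl h)
  | cons a p ih => exact List.cons_lt_cons_iff.mpr (Or.inr ⟨rfl, ih⟩)

lemma list_cases {α : Type} (l m : List α) : l = m ∨ (∃ c r, m = l ++ c :: r) ∨
    (∃ c r, l = m ++ c :: r) ∨
    ∃ (p : List α) (c : α) (r : List α) (c' : α) (r' : List α),
      c ≠ c' ∧ l = p ++ c :: r ∧ m = p ++ c' :: r' := by
  induction l generalizing m with
  | nil =>
    cases m with
    | nil => exact Or.inl rfl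
    | cons c r => exact Or.inr (Or.inl ⟨c, r, rfl⟩)
  | cons a l ih =>
    cases m with
    | nil => exact Or.inr (Or.inr (Or.inl ⟨a, l, rfl⟩))
    | cons b m =>
      by_cases h : a = b
      · subst h
        rcases ih m with h | ⟨c, r, h⟩ | ⟨c, r, h⟩ | ⟨p, c, r, c', r', h1, h2, h3⟩
        · exact Or.inl (by rw [h])
        · exact Or.inr (Or.inl ⟨c, r, by rw [h]; rfl⟩)
        · exact Or.inr (Or.inr (Or.inl ⟨c, r, by rw [h]; rfl⟩))
        · exact Or.inr (Or.inr (Or.inr ⟨a :: p, c, r, c', r', h1, by rw [h2]; rfl,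
            by rw [h3]; rfl⟩))
      · exact Or.inr (Or.inr (Or.inr ⟨[], a, l, b, m, h, rfl, rfl⟩))

/-! ## Paths and addresses -/

lemma sep {n : ℕ} {A : Finset (Fin n)} (addr : Fin n → List (Fin n)) (R : Fin n → Fin n → Prop)
    (hR : ∀ a b, R a b → b ∈ A ∧ (addr a = addr b ++ [a] ∨ addr b = addr a ++ [b]))
    (y u : Fin n) (h : Relation.ReflTransGen R y u) (hy : y ∈ A) (p : List (Fin n)) (c : Fin n)
    (r : List (Fin n)) (hp : addr y = p ++ c :: r) :
    u ∈ A ∧ ((∃ r', addr u = p ++ c :: r') ∨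
      ∃ z ∈ A, addr z = p ∧ Relation.ReflTransGen R y z ∧ Relation.ReflTransGen R z u) := by
  induction h with
  | refl => exact ⟨hy, Or.inl ⟨r, hp⟩⟩
  | @tail b u hyb hbu ih =>
    obtain ⟨huA, hadj⟩ := hR b u hbu
    refine ⟨huA, ?_⟩
    rcases ih with ⟨_, ⟨r', hr'⟩ | ⟨z, hz, hzp, h1, h2⟩⟩
    · rcases hadj with h | h
      · rw [h] at hr'
        rcases List.eq_nil_or_concat r' with h0 | ⟨r'', d, h0⟩
        · rw [h0] at hr'
          have h3 := List.append_inj' hr' rfl
          exact Or.inr ⟨u, huA, h3.1, hyb.tail hbu, Relation.ReflTransGen.refl⟩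
        · have h4 : addr u ++ [b] = (p ++ c :: r'') ++ [d] := by
            rw [hr', h0]
            simp
          have h3 := List.append_inj' h4 rfl
          exact Or.inl ⟨r'', h3.1⟩
      · exact Or.inl ⟨r' ++ [u], by rw [h, hr']; simp⟩
    · exact Or.inr ⟨z, hz, hzp, h1, h2.tail hbu⟩

/-- the sign -/
def sg {n : ℕ} (s : Bool) (a : Fin n) : ℤ := if s then ((a : ℕ) : ℤ) else -((a : ℕ) : ℤ)

lemma sg_exists {n : ℕ} (a b : Fin n) (h : a ≠ b) : ∃ s, sg s a < sg s b := by
  have h1 : (a : ℕ) ≠ (b : ℕ) := fun he => h (Fin.ext he)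
  rcases lt_or_gt_of_ne h1 with h2 | h2
  · exact ⟨true, by simp only [sg, if_true]; exact_mod_cast h2⟩
  · exact ⟨false, by simp only [sg, Bool.false_eq_true, if_false]; omega⟩

/-- the signed address -/
def L {n : ℕ} (addr : Fin n → List (Fin n)) (s : Bool) (a : Fin n) : List ℤ :=
  (addr a).map (sg s)

/-- the set of the vertices whose signed address is smaller than all those related to `v` -/
def W {n : ℕ} (A : Finset (Fin n)) (addr : Fin n → List (Fin n)) (s : Bool)
    (R : Fin n → Fin n → Prop) (v : Fin n) : Finset (Fin n) :=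
  A.filter (fun w => ∀ u, R v u → L addr s w < L addr s u)

lemma W_mono {n : ℕ} (A : Finset (Fin n)) (addr : Fin n → List (Fin n)) (s : Bool)
    (R : Fin n → Fin n → Prop) (x y : Fin n) (h : ∀ u, R y u → R x u) :
    W A addr s R x ⊆ W A addr s R y := by
  intro w hw
  unfold W at hw ⊢
  rw [mem_filter] at hw ⊢
  exact ⟨hw.1, fun u hu => hw.2 u (h u hu)⟩

lemma W_strict {n : ℕ} (A : Finset (Fin n)) (addr : Fin n → List (Fin n)) (s : Bool)
    (R : Fin n → Fin n → Prop) (x y u : Fin n) (huA : u ∈ A) (hu : R y u)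
    (h : ∀ u', R x u' → L addr s u < L addr s u') :
    (W A addr s R y).card < (W A addr s R x).card := by
  apply card_lt_card
  rw [Finset.ssubset_iff_of_subset]
  · refine ⟨u, ?_, ?_⟩
    · unfold W
      rw [mem_filter]
      exact ⟨huA, h⟩
    · unfold W
      rw [mem_filter]
      intro hc
      exact lt_irrefl _ (hc.2 u hu)
  · intro w hw
    unfold W at hw ⊢
    rw [mem_filter] at hw ⊢
    exact ⟨hw.1, fun u' hu' => lt_trans (hw.2 u hu) (h u' hu')⟩

theorem main (hA : S_ADDR) : Pool.Agent.H958.RO.S_FOREST := by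
  intro n E A hE hF
  obtain ⟨addr, had1, had2⟩ := hA n E A hF
  -- the relation and its reverse
  have hadj : ∀ a b, (a, b) ∈ res E A →
      a ∈ A ∧ b ∈ A ∧ (addr a = addr b ++ [a] ∨ addr b = addr a ++ [b]) := by
    intro a b hab
    unfold res at hab
    rw [mem_filter] at hab
    obtain ⟨h1, h2, h3⟩ := hab
    refine ⟨h2, h3, had2 a h2 b h3 ⟨?_, Or.inl h1⟩⟩
    intro he
    have h4 := hE h1
    unfold Om at h4
    rw [mem_filter] at h4
    exact absurd h4.2 (by rw [he]; exact lt_irrefl _)
  have hR : ∀ a b, (a, b) ∈ res E A →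
      b ∈ A ∧ (addr a = addr b ++ [a] ∨ addr b = addr a ++ [b]) := fun a b h => (hadj a b h).2
  have hR' : ∀ a b, (b, a) ∈ res E A →
      b ∈ A ∧ (addr a = addr b ++ [a] ∨ addr b = addr a ++ [b]) := fun a b h =>
    ⟨(hadj b a h).1, (hadj b a h).2.2.symm⟩
  have hswap : ∀ x y, gle (res E A) x y ↔
      Relation.ReflTransGen (fun a b => (b, a) ∈ res E A) y x := by
    intro x y
    unfold gle
    exact Relation.reflTransGen_swap.symm
  have hrefl : ∀ x, gle (res E A) x x := fun x => Relation.ReflTransGen.refl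
  have htrans : ∀ x y z, gle (res E A) x y → gle (res E A) y z → gle (res E A) x z :=
    fun x y z h1 h2 => Relation.ReflTransGen.trans h1 h2
  -- upper sets
  have sepU : ∀ y u, gle (res E A) y u → y ∈ A → ∀ p c r, addr y = p ++ c :: r →
      u ∈ A ∧ ((∃ r', addr u = p ++ c :: r') ∨
        ∃ z ∈ A, addr z = p ∧ gle (res E A) y z ∧ gle (res E A) z u) := by
    intro y u h hy p c r hp
    exact sep addr (fun a b => (a, b) ∈ res E A) hR y u h hy p c r hp
  have sepD : ∀ y u, gle (res E A) u y → y ∈ A → ∀ p c r, addr y = p ++ c :: r →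
      u ∈ A ∧ ((∃ r', addr u = p ++ c :: r') ∨
        ∃ z ∈ A, addr z = p ∧ gle (res E A) z y ∧ gle (res E A) u z) := by
    intro y u h hy p c r hp
    have h1 := sep addr (fun a b => (b, a) ∈ res E A) hR' y u ((hswap u y).mp h) hy p c r hp
    refine ⟨h1.1, ?_⟩
    rcases h1.2 with h2 | ⟨z, hz, hzp, h3, h4⟩
    · exact Or.inl h2
    · exact Or.inr ⟨z, hz, hzp, (hswap z y).mpr h3, (hswap u z).mpr h4⟩
  -- injectivity
  have hlast : ∀ a ∈ A, (addr a).getLast? = some a := by
    intro a ha
    rcases had1 a ha with h | ⟨b, _, _, h⟩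
    · rw [h]
      rfl
    · rw [h]
      simp
  have hinj : ∀ a ∈ A, ∀ b ∈ A, addr a = addr b → a = b := by
    intro a ha b hb h
    have h1 := hlast a ha
    rw [h, hlast b hb] at h1
    exact (Option.some_injective _ h1).symm
  have hLpre : ∀ (s : Bool) (a b : Fin n) (c : Fin n) (r : List (Fin n)),
      addr b = addr a ++ c :: r → L addr s a < L addr s b := by
    intro s a b c r h
    unfold L
    rw [h, List.map_append, List.map_cons]
    exact lt_pre _ _ _
  have hLdiff : ∀ (s : Bool) (a b : Fin n) (p : List (Fin n)) (c c' : Fin n)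
      (r r' : List (Fin n)), sg s c < sg s c' → addr a = p ++ c :: r → addr b = p ++ c' :: r' →
      L addr s a < L addr s b := by
    intro s a b p c c' r r' hs h h'
    unfold L
    rw [h, h', List.map_append, List.map_cons, List.map_append, List.map_cons]
    exact lt_diff _ _ _ hs _ _
  -- the functions
  let up : Fin n → Fin n → Prop := fun v u => gle (res E A) v u
  let dn : Fin n → Fin n → Prop := fun v u => gle (res E A) u v
  let f : Bool → Fin n → ℕ := fun s v => (W A addr s up v).card
  let g : Bool → Fin n → ℕ := fun s v => n + 1 - (W A addr s dn v).card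
  have hcard : ∀ (s : Bool) (v : Fin n), (W A addr s dn v).card ≤ n := by
    intro s v
    calc (W A addr s dn v).card ≤ (univ : Finset (Fin n)).card := card_le_card (subset_univ _)
      _ = n := by simp
  have hfm : ∀ s x y, gle (res E A) x y → f s x ≤ f s y := by
    intro s x y h
    exact card_le_card (W_mono A addr s up x y (fun u hu => htrans _ _ _ h hu))
  have hgm : ∀ s x y, gle (res E A) x y → g s x ≤ g s y := by
    intro s x y h
    have h1 : (W A addr s dn y).card ≤ (W A addr s dn x).card :=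
      card_le_card (W_mono A addr s dn y x (fun u hu => htrans _ _ _ hu h))
    show n + 1 - (W A addr s dn x).card ≤ n + 1 - (W A addr s dn y).card
    omega
  have hF' : ∀ s x y u, u ∈ A → gle (res E A) y u →
      (∀ u', gle (res E A) x u' → L addr s u < L addr s u') → f s y < f s x :=
    fun s x y u hu h1 h2 => W_strict A addr s up x y u hu h1 h2
  have hG' : ∀ s x y u, u ∈ A → gle (res E A) u x →
      (∀ u', gle (res E A) u' y → L addr s u < L addr s u') → g s y < g s x := by
    intro s x y u hu h1 h2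
    have h3 := W_strict A addr s dn y x u hu h1 h2
    have h4 := hcard s y
    show n + 1 - (W A addr s dn y).card < n + 1 - (W A addr s dn x).card
    omega
  -- the main claim
  have hmain : ∀ x y, IncOn E A x y → ∃ s, f s y < f s x ∨ g s y < g s x := by
    rintro x y ⟨hx, hy, hxy, hyx⟩
    rcases list_cases (addr x) (addr y) with h | ⟨c, r, h⟩ | ⟨c, r, h⟩ |
      ⟨p, c, r, c', r', hcc, h1, h2⟩
    · exfalso
      have := hinj x hx y hy h
      rw [this] at hxy
      exact hxy (hrefl y)
    · -- addr y = addr x ++ c :: r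
      refine ⟨true, Or.inr (hG' true x y x hx (hrefl x) ?_)⟩
      intro u hu
      rcases (sepD y u hu hy _ _ _ h).2 with ⟨r', hr'⟩ | ⟨z, hz, hzp, h3, _⟩
      · exact hLpre true x u c r' hr'
      · exfalso
        have := hinj z hz x hx hzp
        rw [this] at h3
        exact hxy h3
    · -- addr x = addr y ++ c :: r
      refine ⟨true, Or.inl (hF' true x y y hy (hrefl y) ?_)⟩
      intro u hu
      rcases (sepU x u hu hx _ _ _ h).2 with ⟨r', hr'⟩ | ⟨z, hz, hzp, h3, _⟩
      · exact hLpre true y u c r' hr'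
      · exfalso
        have := hinj z hz y hy hzp
        rw [this] at h3
        exact hxy h3
    · by_cases hz : ∃ z ∈ A, addr z = p ∧ gle (res E A) x z
      · obtain ⟨z, hzA, hzp, hxz⟩ := hz
        obtain ⟨s, hs⟩ := sg_exists c c' hcc
        refine ⟨s, Or.inr (hG' s x y x hx (hrefl x) ?_)⟩
        intro u hu
        rcases (sepD y u hu hy _ _ _ h2).2 with ⟨r'', hr''⟩ | ⟨z', hz', hzp', h3, _⟩
        · exact hLdiff s x u p c c' r r'' hs h1 hr''
        · exfalso
          have := hinj z' hz' z hzA (by rw [hzp, hzp'])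
          rw [this] at h3
          exact hxy (htrans _ _ _ hxz h3)
      · obtain ⟨s, hs⟩ := sg_exists c' c (Ne.symm hcc)
        refine ⟨s, Or.inl (hF' s x y y hy (hrefl y) ?_)⟩
        intro u hu
        rcases (sepU x u hu hx _ _ _ h1).2 with ⟨r'', hr''⟩ | ⟨z', hz', hzp', h3, _⟩
        · exact hLdiff s y u p c' c r' r'' hs h2 hr''
        · exact absurd ⟨z', hz', hzp', h3⟩ hz
  refine ⟨![f true, f false, g true, g false], ?_, ?_⟩
  · intro i x y h
    fin_cases i
    · exact hfm true x y h
    · exact hfm false x y h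
    · exact hgm true x y h
    · exact hgm false x y h
  · intro x y h
    obtain ⟨s, h1 | h1⟩ := hmain x y h
    · cases s
      · exact ⟨1, h1⟩
      · exact ⟨0, h1⟩
    · cases s
      · exact ⟨3, h1⟩
      · exact ⟨2, h1⟩

end

end Pool.Agent.H553.RO.Forest
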